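import Pool.Agent.TH822.AA.PU
import Pool.Agent.TH822.DZ.Den
import Pool.Agent.TH822.DZ.Mel
import Pool.Agent.H345R2.AS.Fin
import Pool.Agent.W69.DZ.All
set_option autoImplicit false

/-!
# Almost all short intervals, with the density of the zeros
-/

open Complex Filter Topology Set MeasureTheory
open scoped BigOperators ComplexConjugate

namespace Pool.Agent.TH822.AA

open H370 H370.A2 H295SI H370.AS Pool.Agent.TH822.DZ

/-- the statement for almost all intervals `(t, t + H]` -/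
def Almost (F : ℂ → ℂ) : Prop := ∀ η lam ε : ℝ, 0 < η → η < 1 → 0 < lam → 2 * lam ≤ 1 + η →
  0 < ε → ∃ δ : ℝ, 0 < δ ∧ ∃ T0 : ℝ, 10 ≤ T0 ∧ ∀ T : ℝ, T0 ≤ T → ∀ H : ℝ,
    T ^ η ≤ H → H ≤ T / 8 →
    volume {t : ℝ | t ∈ Set.Icc T (2 * T) ∧
      ¬ ((2 - cc lam - ε) * (NN F t (t + H) : ℝ) + 2 * W69DZ.EX F t (t + H) ≤
          Ns F t (t + H) ∧
        (3 - cc lam - ε) * (NN F t (t + H) : ℝ) + W69DZ.EX F t (t + H) +
          W69DZ.NF F t (t + H) ≤ 2 * (Nd F t (t + H) : ℝ))} ≤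
      ENNReal.ofReal (T ^ (1 - δ))

theorem almost_of_bz {F : ℂ → ℂ} (hF : GoodL F) (hB : ∀ τ : ℝ, 0 < τ → τ ≤ 1 → BZr F τ) :
    Almost F := by
  intro η0 lam ε hη0 hη1 hlam hgap hε
  have hlam1 : lam ≤ 1 := by linarith
  have hc := cc_cont lam hlam hlam1
  have h1 : ∀ᶠ x : ℝ in 𝓝[<] lam, (0 < x ∧ x < lam) ∧ cc x < cc lam + ε / 4 := by
    have e1 : ∀ᶠ x : ℝ in 𝓝[<] lam, 0 < x := nhdsWithin_le_nhds (lt_mem_nhds hlam)
    have e2 : ∀ᶠ x : ℝ in 𝓝[<] lam, x < lam := self_mem_nhdsWithin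
    have e3 : ∀ᶠ x : ℝ in 𝓝[<] lam, cc x < cc lam + ε / 4 :=
      nhdsWithin_le_nhds (hc.eventually (gt_mem_nhds (by linarith)))
    exact (e1.and e2).and e3
  obtain ⟨x, ⟨hx0, hx1⟩, hx2⟩ := h1.exists
  have hxle : x ≤ 1 := by linarith
  have hR := H793SI.convS _ (s_pos x hx0) (s_le x hxle)
  have hW := H255SI.winS _ (s_pos x hx0) (s_le x hxle)
  have hK := H218SI3.kSqS _ (s_pos x hx0) (s_le x hxle)
  have hc0 := cc_nonneg x hx0 hxle
  obtain ⟨a, ha, hld⟩ := hF.ld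
  set c : ℝ := cc x with hcdef
  set η : ℝ := min (1 / 2) (ε / (4 * (c + ε + 1))) with hη
  have hη00 : 0 < η := lt_min (by norm_num) (by positivity)
  have hηh : η ≤ 1 / 2 := min_le_left _ _
  have hηe : η * (4 * (c + ε + 1)) ≤ ε := by
    have : η ≤ ε / (4 * (c + ε + 1)) := min_le_right _ _
    rwa [le_div_iff₀ (by positivity)] at this
  set τ : ℝ := η0 / 4 with hτ
  have hτ0 : 0 < τ := by positivity
  obtain ⟨δ, hδ, T0, hT0, h⟩ := almost_up hR hF ha hld hτ0.le (hB τ hτ0 (by linarith)) η0 x η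
    hη0 hη1 hx0 (by linarith) (by nlinarith) hη00
  refine ⟨δ, hδ, T0, hT0, fun T hT H hH1 hH2 => (measure_mono ?_).trans (h T hT H hH1 hH2)⟩
  have hT10 : 10 ≤ T := hT0.trans hT
  have hTpos : 0 < T := by linarith
  rintro t ⟨ht1, ht2⟩
  refine ⟨ht1, fun hcon => ht2 ?_⟩
  obtain ⟨h3, h4⟩ := hcon
  have hHpos : 0 < H := lt_of_lt_of_le (Real.rpow_pos_of_pos hTpos _) hH1
  have hL : 0 < Real.log T := Real.log_pos (by linarith)
  have hU : 1 ≤ t := by linarith [ht1.1]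
  have hpi := Real.pi_pos
  set M : ℝ := H * Real.log T / (2 * Real.pi) with hM
  have hM0 : 0 < M := by positivity
  have hPS : PS (RS (Real.sqrt 2 * x)) F t (t + H) (x * Real.log T) =
      QQG (gS (Real.sqrt 2 * x)) F (x * Real.log T) t (t + H) := by
    rw [H228SI.qqJJ (gS (Real.sqrt 2 * x)) _ hW hR hK F hF t (t + H) hU (x * Real.log T)]
    rfl
  rw [ccR_eq x hx0 hxle, ← hcdef, hPS] at h4
  obtain ⟨hNNl, hNNu⟩ := abs_le.mp h3
  obtain ⟨hb1, hb2⟩ := W69DZ.trace2 hF hU hW (U2 := t + H) (x * Real.log T)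
  set N : ℝ := (NN F t (t + H) : ℝ) with hN
  have hN0 : (0 : ℝ) ≤ N := Nat.cast_nonneg _
  have hNM : M * (1 - η) ≤ N := by linarith
  have hkey : M * (c + η) ≤ (c + ε / 2) * N := by
    have h5 : c + η ≤ (c + ε / 2) * (1 - η) := by nlinarith
    calc M * (c + η) ≤ M * ((c + ε / 2) * (1 - η)) := by gcongr
      _ = (c + ε / 2) * (M * (1 - η)) := by ring
      _ ≤ _ := by gcongr
  have hcN : (c + ε / 2) * N ≤ (cc lam + ε) * N := by
    apply mul_le_mul_of_nonneg_right _ hN0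
    linarith
  constructor
  · linarith
  · linarith

/-- the zeta function -/
theorem bz_z (τ : ℝ) (hτ : 0 < τ) (hτ1 : τ ≤ 1) : BZr riemannZeta τ := by
  apply bzr_of_den good_zeta hτ
  have h1 : Den riemannZeta (1 / 2 + τ) (11 / 16) :=
    den_block good_zeta dat_Z (fun ρ h0 h1 h2 h3 => mellin_Z (by linarith) (by
      rintro rfl
      simp at h3
      linarith) h0) (by norm_num : (0:ℝ) < 1 / 5) (fun ρ _ h => P0_Z_low ρ h) hτ hτ1
  exact h1.union den_zeta_high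

/-- the Dirichlet L-functions of the nonprincipal characters -/
theorem bz_d {q : ℕ} [NeZero q] (χ : DirichletCharacter ℂ q) (hχ : χ.IsPrimitive) (hχ1 : χ ≠ 1)
    (τ : ℝ) (hτ : 0 < τ) (hτ1 : τ ≤ 1) : BZr (DirichletCharacter.LFunction χ) τ := by
  apply bzr_of_den (good_dirichlet χ hχ) hτ
  exact den_block (good_dirichlet χ hχ) (dat_D χ hχ1)
    (fun ρ h0 h1 h2 h3 => mellin_D χ hχ1 (by linarith) h0) one_pos
    (fun ρ _ _ => by rw [P0_D, norm_one]) hτ hτ1

theorem almost_zeta : Almost riemannZeta := almost_of_bz good_zeta bz_z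

theorem almost_dir {q : ℕ} [NeZero q] (χ : DirichletCharacter ℂ q) (hχ : χ.IsPrimitive)
    (hχ1 : χ ≠ 1) : Almost (DirichletCharacter.LFunction χ) :=
  almost_of_bz (good_dirichlet χ hχ) (bz_d χ hχ hχ1)

/-- every primitive character, the principal one included -/
theorem almost_prim {q : ℕ} [NeZero q] (χ : DirichletCharacter ℂ q) (hχ : χ.IsPrimitive) :
    Almost (DirichletCharacter.LFunction χ) := by
  rcases eq_or_ne χ 1 with h | h
  · have hq : q = 1 := by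
      rw [h, DirichletCharacter.IsPrimitive, DirichletCharacter.conductor_one] at hχ
      exact hχ.symm
    subst hq
    rw [DirichletCharacter.LFunction_modOne_eq]
    exact almost_zeta
  · exact almost_dir χ hχ h

end Pool.Agent.TH822.AA
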