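import Pool.Agent.H345R2.A2.Main2
set_option autoImplicit false

/-!
# The pair sum in almost all short intervals, upper bound

After `Pool.Agent.H345R2.A2.PC2` and `Pool.Agent.H345R2.A2.Main2`, for coefficients bounded by the
von Mangoldt function.
-/

open Complex Filter Topology Set MeasureTheory
open scoped BigOperators ComplexConjugate

namespace Pool.Agent.TH822.AA

open H370 H370.A2 H295SI H370.AS
open H613SI (conv_cont conv_le)
open H370.SI (nn_short)

/-- the pair sum, upper bound -/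
theorem pair_up {R : ℝ → ℝ} (hR : Conv R) {F : ℂ → ℂ} (hF : GoodL F) {a : ℕ → ℂ}
    (ha : ∀ n, ‖a n‖ ≤ ArithmeticFunction.vonMangoldt n)
    (hld : ∀ s : ℂ, 1 < s.re → 1 ≤ s.im → deriv F s / F s = - ∑' n : ℕ, a n * (n : ℂ) ^ (-s))
    {τ : ℝ} (hτ : 0 ≤ τ) :
    ∀ r μ lam κ η : ℝ, 0 < r → r < 1 → 0 < μ → μ < lam → lam ≤ 1 → 2 * τ * lam < r → 0 < κ →
    0 < η →
    ∃ θ : ℝ, 0 < θ ∧ θ ≤ 1 ∧ ∃ T0 : ℝ, 10 ≤ T0 ∧ ∀ T : ℝ, T0 ≤ T → ∀ LT : ℝ,
      |LT - Real.log T| ≤ 1 →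
    ∀ A B : ℝ, T + 1 ≤ A → B ≤ 2 * T - 1 → T ^ r ≤ B - A →
      (∀ s : ℂ, s ∈ zset F A B →
        (s.im ≤ A + 2 * Real.log T ∨ B - 2 * Real.log T ≤ s.im) → s.re ≤ 1 / 2 + τ) →
      ∀ σ w : ℝ, ∀ X : ℕ, 0 < σ → 0 ≤ w → w ≤ θ / 4 * (B - A) →
      Real.sqrt 2 * Real.exp (-w ^ 2 / (4 * σ ^ 2)) ≤ θ / (1 + θ) →
      (lam + κ) * Real.log T ≤ Real.log (X + 1) →
      ∫ x in (A - w)..(B + w), QE R a (μ * LT) X σ x ≤ B - A →
      |(NN F A B : ℝ) - (B - A) * LT / (2 * Real.pi)| ≤ η * ((B - A) * LT / (2 * Real.pi)) ∧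
      PS R F A B (μ * LT) ≤ ((B - A) * LT / (2 * Real.pi)) * cR R μ +
        η * ((B - A) * LT / (2 * Real.pi)) := by
  intro r μ lam κ η hr hr1 hμ hμlam hlam1 hgap hκ hη
  have hlam : 0 < lam := hμ.trans hμlam
  set I1 := ∫ α in (0 : ℝ)..1, α * R α with hI1
  have hI10 : 0 ≤ I1 := intervalIntegral.integral_nonneg zero_le_one fun α hα =>
    mul_nonneg hα.1 (hR.nonneg α)
  have hR0 : 0 ≤ R 0 := hR.nonneg 0
  set Q0 := R 0 / μ + 2 * μ * I1 with hQ0
  have hQ00 : 0 ≤ Q0 := by positivity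
  have hcR : cR R μ = Q0 := rfl
  -- choose θ
  set θ : ℝ := min (1 / 4) (η / (30 * (Q0 + 1))) with hθ
  have hθ0 : 0 < θ := lt_min (by norm_num) (by positivity)
  have hθ4 : θ ≤ 1 / 4 := min_le_left _ _
  have hθ1 : θ ≤ 1 := by linarith
  have hθ2 : 15 * θ * Q0 ≤ η / 2 := by
    have h1 : θ ≤ η / (30 * (Q0 + 1)) := min_le_right _ _
    rw [le_div_iff₀ (by positivity)] at h1
    nlinarith
  obtain ⟨K1, K2, T0, hK1, hK2, hT0, hJu⟩ :=
    JJ_upper hF ha hld hτ r lam κ θ hr hr1 hlam hlam1 hgap hκ hθ0 hθ1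
  obtain ⟨C4, hC4, ha3'⟩ := H613SI.a3_aux H627SI.lamSmooth hR
  obtain ⟨C5, hC5, hNN⟩ := nn_short hF
  -- the constants
  set spi := Real.sqrt Real.pi with hspi
  have hspi0 : 0 < spi := Real.sqrt_pos.mpr Real.pi_pos
  set K5 : ℝ := 2 / spi * ((1 + θ) / (2 * Real.pi) * (2 * K1 * (R 0 * (Real.exp 4 * spi)) / μ +
    (1 + θ) ^ 3 * C4 + (1 + θ) ^ 2) + K2 * R 0) with hK5
  have hK50 : 0 ≤ K5 := by positivity
  have hE0 : 0 ≤ R 0 * (Real.exp 4 * spi) := by positivity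
  have evL : ∀ᶠ T : ℝ in atTop, (4 * Real.pi * K5 / η + 1 ≤ Real.log T ∧
      (4 * Real.pi * (2 * C5 + 1) / η + 1 ≤ Real.log T ∧
      1 / μ + 1 ≤ Real.log T)) ∧ (1 / θ + 1 ≤ Real.log T ∧ μ / (lam - μ) ≤ Real.log T) :=
    ((Real.tendsto_log_atTop.eventually_ge_atTop _).and
      ((Real.tendsto_log_atTop.eventually_ge_atTop _).and
        (Real.tendsto_log_atTop.eventually_ge_atTop _))).and
      ((Real.tendsto_log_atTop.eventually_ge_atTop _).and
        (Real.tendsto_log_atTop.eventually_ge_atTop _))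
  have ev4 := H613SI.ev_pow r hr
  obtain ⟨T6, hT6⟩ := (evL.and ev4).exists_forall_of_atTop
  refine ⟨θ, hθ0, hθ1, max T0 T6, hT0.trans (le_max_left _ _), fun T hT LT hLT => ?_⟩
  have hTT0 : T0 ≤ T := (le_max_left _ _).trans hT
  obtain ⟨⟨⟨hL5, hL7, hL2⟩, hL8, hL9⟩, hL10, hL11⟩ := hT6 T ((le_max_right _ _).trans hT)
  intro A B hA hB hAB hz σ w X hσ hw0 hw1 hmass hXlog hQE
  have hJu' := hJu T hTT0 A B hA hB hAB hz σ w X hσ hw0 hw1 hmass hXlog
  have hT10 : 10 ≤ T := hT0.trans hTT0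
  have hTpos : 0 < T := by linarith
  have hU : 1 ≤ A := by linarith
  set L := Real.log T with hL
  set H : ℝ := B - A with hHdef
  have hH0 : 0 < H := by linarith
  obtain ⟨hLT1, hLT2⟩ := abs_le.1 hLT
  have hLLT : L - 1 ≤ LT := by linarith
  have hLLT2 : LT ≤ L + 1 := by linarith
  have hθinv : 1 / θ ≤ LT := by linarith
  have hμinv : 1 / μ ≤ LT := by linarith
  have hLTpos : 0 < LT := lt_of_lt_of_le (by positivity) hθinv
  have hθLT : 1 ≤ θ * LT := by
    rw [div_le_iff₀ hθ0] at hθinv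
    linarith
  have hLpos : 0 < L := by
    have : 0 < 1 / θ := by positivity
    linarith
  -- comparison of the logarithms
  have hLu : L ≤ (1 + θ) * LT := by linarith
  have hLl : (1 - θ) * LT ≤ L := by linarith
  have hL2T : L ≤ 2 * LT := by nlinarith
  refine ⟨?_, ?_⟩
  · have h1 := hNN T hT10 A B (by linarith) (by linarith) (by linarith)
    rw [← hHdef, ← hL] at h1
    exact abs_log_aux H L LT C5 _ η hH0 hC5 hη hLT h1 (hL10.trans hAB) (by linarith)
  · set Λ := μ * LT with hΛ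
    have hΛ1 : 1 ≤ Λ := by
      rw [div_le_iff₀ hμ] at hμinv
      rw [hΛ]; linarith
    have hΛ0 : 0 < Λ := by linarith
    have hΛlam : Λ ≤ lam * L := by
      rw [div_le_iff₀ (by linarith)] at hL9
      rw [hΛ]
      nlinarith
    -- integrability
    have hRc := conv_cont hR
    have hVc : ContinuousOn (fun α : ℝ => VV (Λ * α)) (Set.uIcc 0 1) := by
      refine (VV_cont Λ).comp (by fun_prop) ?_
      intro α hα
      rw [Set.uIcc_of_le zero_le_one] at hα
      simp only [Set.mem_Iic]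
      nlinarith [hα.2]
    have hint1 : IntervalIntegrable (fun α : ℝ => R α * Real.exp (-(Λ * α) ^ 2)) volume 0 1 :=
      (by fun_prop : Continuous fun α : ℝ => R α * Real.exp (-(Λ * α) ^ 2)).intervalIntegrable _ _
    have hint2 : IntervalIntegrable (fun α : ℝ => R α * Real.exp (2 * (Λ * α) - (Λ * α) ^ 2 / 2))
        volume 0 1 :=
      (by fun_prop : Continuous fun α : ℝ =>
        R α * Real.exp (2 * (Λ * α) - (Λ * α) ^ 2 / 2)).intervalIntegrable _ _
    have hint3 : IntervalIntegrable (fun α : ℝ => R α * VV (Λ * α)) volume 0 1 :=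
      (hRc.continuousOn.mul hVc).intervalIntegrable
    have hint4 : IntervalIntegrable R volume 0 1 := hRc.intervalIntegrable _ _
    have hint5 : IntervalIntegrable (fun α : ℝ => R α *
        ∫ x in (A - w)..(B + w), ‖EE (bb a (Λ * α)) X σ x‖ ^ 2) volume 0 1 := by
      have h5 : Continuous fun α : ℝ => R α * ∫ x in (A - w)..(B + w),
          ‖EE (bb a (Λ * α)) X σ x‖ ^ 2 := by
        apply hRc.mul
        have h6 : Continuous (Function.uncurry fun α x : ℝ => ‖EE (bb a (Λ * α)) X σ x‖ ^ 2) :=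
          (EE_cont2 a Λ X σ).norm.pow 2
        exact intervalIntegral.continuous_parametric_intervalIntegral_of_continuous' h6 _ _
      exact h5.intervalIntegrable _ _
    have hintJ : IntervalIntegrable (fun α : ℝ => R α * JJ F A B (Λ * α)) volume 0 1 :=
      (hRc.mul ((JJ_cont hF hU).comp (by fun_prop))).intervalIntegrable _ _
    -- the five integrals
    set i1 := ∫ α in (0 : ℝ)..1, R α * Real.exp (-(Λ * α) ^ 2) with hi1
    set i2 := ∫ α in (0 : ℝ)..1, R α * Real.exp (2 * (Λ * α) - (Λ * α) ^ 2 / 2) with hi2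
    set i3 := ∫ α in (0 : ℝ)..1, R α * VV (Λ * α) with hi3
    set i4 := ∫ α in (0 : ℝ)..1, R α with hi4
    set i5 := ∫ α in (0 : ℝ)..1, R α *
        ∫ x in (A - w)..(B + w), ‖EE (bb a (Λ * α)) X σ x‖ ^ 2 with hi5
    have hsplit : ∀ c1 c2 c3 c4 c5 : ℝ, ∫ α in (0 : ℝ)..1, (c1 * (R α * Real.exp (-(Λ * α) ^ 2)) +
          c2 * (R α * Real.exp (2 * (Λ * α) - (Λ * α) ^ 2 / 2)) +
          c3 * (R α * VV (Λ * α)) + c4 * R α +
          c5 * (R α * ∫ x in (A - w)..(B + w), ‖EE (bb a (Λ * α)) X σ x‖ ^ 2)) =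
        c1 * i1 + c2 * i2 + c3 * i3 + c4 * i4 + c5 * i5 := by
      intro c1 c2 c3 c4 c5
      rw [intervalIntegral.integral_add ((((hint1.const_mul _).add (hint2.const_mul _)).add
          (hint3.const_mul _)).add (hint4.const_mul _)) (hint5.const_mul _),
        intervalIntegral.integral_add (((hint1.const_mul _).add (hint2.const_mul _)).add
          (hint3.const_mul _)) (hint4.const_mul _),
        intervalIntegral.integral_add ((hint1.const_mul _).add (hint2.const_mul _))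
          (hint3.const_mul _),
        intervalIntegral.integral_add (hint1.const_mul _) (hint2.const_mul _),
        intervalIntegral.integral_const_mul, intervalIntegral.integral_const_mul,
        intervalIntegral.integral_const_mul, intervalIntegral.integral_const_mul,
        intervalIntegral.integral_const_mul]
    have hsplitI : ∀ c1 c2 c3 c4 c5 : ℝ, IntervalIntegrable (fun α : ℝ =>
          (c1 * (R α * Real.exp (-(Λ * α) ^ 2)) +
          c2 * (R α * Real.exp (2 * (Λ * α) - (Λ * α) ^ 2 / 2)) +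
          c3 * (R α * VV (Λ * α)) + c4 * R α +
          c5 * (R α * ∫ x in (A - w)..(B + w), ‖EE (bb a (Λ * α)) X σ x‖ ^ 2))) volume 0 1 :=
      fun c1 c2 c3 c4 c5 => ((((hint1.const_mul _).add (hint2.const_mul _)).add
        (hint3.const_mul _)).add (hint4.const_mul _)).add (hint5.const_mul _)
    -- individual bounds
    have ha1 := H613SI.a1_aux hR Λ hΛ0
    have ha2 := H613SI.a2_aux hR Λ hΛ0
    have ha3 := ha3' Λ hΛ1
    rw [← hi1] at ha1
    rw [← hi2] at ha2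
    rw [← hi3] at ha3
    have ha4 : i4 ≤ R 0 := by
      calc ∫ α in (0 : ℝ)..1, R α ≤ ∫ α in (0 : ℝ)..1, R 0 := by
            refine intervalIntegral.integral_mono_on zero_le_one hint4
              (continuous_const.intervalIntegrable _ _) fun α hα => conv_le hR α hα.1
        _ = R 0 := by simp
    have ha5 : i5 ≤ H := by
      rw [hi5, ← QE_swap hR]
      exact hQE
    have hM0 : 0 ≤ H * LT / (2 * Real.pi) := by positivity
    have hL5' : 4 * Real.pi * K5 / η ≤ LT := by linarith only [hL5, hLLT]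
    rw [hcR]
    have hb : ∫ α in (0 : ℝ)..1, R α * JJ F A B (Λ * α) ≤
        (1 + θ) / (2 * Real.pi) * (H * L ^ 2) * i1 +
        (1 + θ) / (2 * Real.pi) * (K1 * (H * L)) * i2 +
        (1 + θ) / (2 * Real.pi) * ((1 + θ) ^ 3 * H) * i3 + K2 * H * i4 +
        (1 + θ) / (2 * Real.pi) * (1 + θ) ^ 2 * i5 := by
      rw [← hsplit]
      refine intervalIntegral.integral_mono_on zero_le_one hintJ (hsplitI _ _ _ _ _)
        fun α hα => ?_
      have h1 := hJu' (Λ * α) (mul_nonneg hΛ0.le hα.1) (by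
        calc Λ * α ≤ Λ * 1 := mul_le_mul_of_nonneg_left hα.2 hΛ0.le
          _ ≤ lam * L := by linarith)
      have h2 := mul_le_mul_of_nonneg_left h1 (hR.nonneg α)
      refine h2.trans (le_of_eq ?_)
      ring
    have h2 := comb_up θ H L LT (R 0) spi μ I1 K1 (R 0 * (Real.exp 4 * spi)) C4 K2
      i1 i2 i3 i4 i5 _ hθ0 hθ4 hH0 hLTpos hLpos hLu hL2T hR0 hspi0 hμ hI10 hK1 hE0 hK2
      ha1 ha2 ha3 ha4 ha5 hb
    rw [← hK5, ← hQ0] at h2
    have h4 : H * K5 ≤ (H * LT / (2 * Real.pi)) * (η / 2) := err_aux H LT η K5 hH0 hη hL5'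
    have h6 : (H * LT / (2 * Real.pi)) * (15 * θ * Q0) ≤ (H * LT / (2 * Real.pi)) * (η / 2) :=
      mul_le_mul_of_nonneg_left hθ2 hM0
    unfold PS
    have h7 : (H * LT / (2 * Real.pi)) * ((1 + 15 * θ) * Q0) =
        (H * LT / (2 * Real.pi)) * Q0 + (H * LT / (2 * Real.pi)) * (15 * θ * Q0) := by ring
    linarith only [h2, h4, h6, h7]

/-- the pair sum in almost all short intervals -/
theorem almost_up {R : ℝ → ℝ} (hR : Conv R) {F : ℂ → ℂ} (hF : GoodL F) {a : ℕ → ℂ}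
    (ha : ∀ n, ‖a n‖ ≤ ArithmeticFunction.vonMangoldt n)
    (hld : ∀ s : ℂ, 1 < s.re → 1 ≤ s.im → deriv F s / F s = - ∑' n : ℕ, a n * (n : ℂ) ^ (-s))
    {τ : ℝ} (hτ : 0 ≤ τ) (hB : BZt F τ) (η0 μ ε : ℝ) (hη0 : 0 < η0)
    (hη1 : η0 < 1) (hμ : 0 < μ) (hgap : 2 * μ < 1 + η0) (hgap2 : 2 * τ * μ < η0)
    (hε : 0 < ε) : ∃ δ : ℝ, 0 < δ ∧ ∃ T0 : ℝ, 10 ≤ T0 ∧ ∀ T : ℝ, T0 ≤ T → ∀ H : ℝ,
      T ^ η0 ≤ H → H ≤ T / 8 →
      volume {t : ℝ | t ∈ Set.Icc T (2 * T) ∧
        ¬ (|(NN F t (t + H) : ℝ) - H * Real.log T / (2 * Real.pi)| ≤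
            ε * (H * Real.log T / (2 * Real.pi)) ∧
          PS R F t (t + H) (μ * Real.log T) ≤ (H * Real.log T / (2 * Real.pi)) * cR R μ +
            ε * (H * Real.log T / (2 * Real.pi)))} ≤
        ENNReal.ofReal (T ^ (1 - δ)) := by
  -- choose `lam`
  obtain ⟨lam, hlam1, hlam2, hlam3⟩ : ∃ lam : ℝ, μ < lam ∧ 2 * lam < 1 + η0 ∧
      2 * τ * lam < η0 := by
    have e1 : ∀ᶠ x : ℝ in 𝓝[>] μ, μ < x := self_mem_nhdsWithin
    have e2 : ∀ᶠ x : ℝ in 𝓝[>] μ, 2 * x < 1 + η0 := nhdsWithin_le_nhds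
      ((continuous_const.mul continuous_id).continuousAt.eventually (gt_mem_nhds hgap))
    have e3 : ∀ᶠ x : ℝ in 𝓝[>] μ, 2 * τ * x < η0 := nhdsWithin_le_nhds
      ((continuous_const.mul continuous_id).continuousAt.eventually (gt_mem_nhds hgap2))
    obtain ⟨x, ⟨h1, h2⟩, h3⟩ := ((e1.and e2).and e3).exists
    exact ⟨x, h1, h2, h3⟩
  have hlam0 : 0 < lam := hμ.trans hlam1
  have hlamle : lam ≤ 1 := by linarith
  obtain ⟨κ, hκ, hexc⟩ := exc_set hR η0 lam hη0 hη1 hlam0 hlam2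
  obtain ⟨T1, hT1, hexc⟩ := hexc κ hκ le_rfl
  set r : ℝ := (2 * τ * lam + η0) / 2 with hr
  have hr0 : 0 < r := by positivity
  have hr1 : r < 1 := by rw [hr]; linarith
  have hrgap : 2 * τ * lam < r := by rw [hr]; linarith
  have hrη : r < η0 := by rw [hr]; linarith
  obtain ⟨θ, hθ0, hθ1, T2, hT2, hm⟩ := pair_up hR hF ha hld hτ r μ lam (κ / 2) ε hr0 hr1 hμ
    hlam1 hlamle hrgap (by positivity) hε
  obtain ⟨δ1, hδ1, T3, hBZ⟩ := hB
  set δ : ℝ := min κ δ1 / 2 with hδ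
  have hδ0 : 0 < δ := by rw [hδ]; have := lt_min hκ hδ1; positivity
  have hδκ : 2 * δ ≤ κ := by rw [hδ]; have := min_le_left κ δ1; linarith
  have hδδ : 2 * δ ≤ δ1 := by rw [hδ]; have := min_le_right κ δ1; linarith
  -- eventual facts
  have ev1 : ∀ᶠ T : ℝ in atTop, (2 * T) ^ r ≤ T ^ η0 := by
    have h1 : ∀ᶠ T : ℝ in atTop, (2 : ℝ) ^ r ≤ T ^ (η0 - r) :=
      (tendsto_rpow_atTop (by linarith)).eventually_ge_atTop _
    filter_upwards [h1, eventually_gt_atTop 0] with T h1 h2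
    calc (2 * T) ^ r = 2 ^ r * T ^ r := Real.mul_rpow (by norm_num) h2.le
      _ ≤ T ^ (η0 - r) * T ^ r := by gcongr
      _ = T ^ η0 := by rw [← Real.rpow_add h2]; congr 1; ring
  have ev2 : ∀ᶠ T : ℝ in atTop, (lam + κ / 2) * Real.log 2 / (κ / 2) ≤ Real.log T :=
    Real.tendsto_log_atTop.eventually_ge_atTop _
  have ev3 : ∀ᶠ T : ℝ in atTop,
      Real.sqrt 2 * Real.exp (-((θ / 4) ^ 2 * T ^ (2 * κ)) / 4) ≤ θ / (1 + θ) := by
    have h1 : Tendsto (fun T : ℝ => Real.sqrt 2 * Real.exp (-((θ / 4) ^ 2 * T ^ (2 * κ)) / 4))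
        atTop (𝓝 (Real.sqrt 2 * 0)) := by
      apply Tendsto.const_mul
      apply Real.tendsto_exp_atBot.comp
      have h2 : Tendsto (fun T : ℝ => (θ / 4) ^ 2 / 4 * T ^ (2 * κ)) atTop atTop :=
        (tendsto_rpow_atTop (by positivity)).const_mul_atTop (by positivity)
      refine (tendsto_neg_atTop_atBot.comp h2).congr fun T => ?_
      simp only [Function.comp]
      ring
    rw [mul_zero] at h1
    exact h1.eventually (ge_mem_nhds (by positivity))
  have ev4 : ∀ᶠ T : ℝ in atTop, 3 ≤ T ^ δ := (tendsto_rpow_atTop hδ0).eventually_ge_atTop _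
  have ev5 : ∀ᶠ T : ℝ in atTop, 2 * Real.log 2 ≤ Real.log T :=
    Real.tendsto_log_atTop.eventually_ge_atTop _
  obtain ⟨T4, hT4⟩ := ((((ev1.and ev2).and ev3).and ev4).and ev5).exists_forall_of_atTop
  refine ⟨δ, hδ0, max (max 100 T1) (max (2 * T2) (max T3 T4)),
    le_trans (by norm_num) ((le_max_left _ _).trans (le_max_left _ _)),
    fun T hT H hH1 hH2 => ?_⟩
  have hT100 : 100 ≤ T := ((le_max_left _ _).trans (le_max_left _ _)).trans hT
  have hTT1 : T1 ≤ T := ((le_max_right _ _).trans (le_max_left _ _)).trans hT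
  have hTT2 : 2 * T2 ≤ T := ((le_max_left _ _).trans (le_max_right _ _)).trans hT
  have hTT3 : T3 ≤ T := ((le_max_left _ _).trans ((le_max_right _ _).trans
    (le_max_right _ _))).trans hT
  obtain ⟨⟨⟨⟨e1, e2⟩, e3⟩, e4⟩, e5⟩ := hT4 T (((le_max_right _ _).trans
    ((le_max_right _ _).trans (le_max_right _ _))).trans hT)
  have hTpos : 0 < T := by linarith
  have hHpos : 0 < H := lt_of_lt_of_le (Real.rpow_pos_of_pos hTpos _) hH1
  have hlogT : 0 < Real.log T := Real.log_pos (by linarith)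
  set X : ℕ := ⌊T ^ (lam + κ)⌋₊ with hX
  set σ : ℝ := H * T ^ (-κ) with hσ
  have hTκ : 0 < T ^ (-κ) := Real.rpow_pos_of_pos hTpos _
  have hσ0 : 0 < σ := by positivity
  set w : ℝ := θ / 4 * H with hw
  have hw0 : 0 ≤ w := by positivity
  have hw2 : w ≤ H / 2 := by rw [hw]; nlinarith
  have hexpo : -w ^ 2 / (4 * σ ^ 2) = -((θ / 4) ^ 2 * T ^ (2 * κ)) / 4 := by
    have h1 : T ^ (2 * κ) * (T ^ (-κ)) ^ 2 = 1 := by
      rw [← Real.rpow_natCast, ← Real.rpow_mul hTpos.le, ← Real.rpow_add hTpos]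
      have : 2 * κ + -κ * ((2 : ℕ) : ℝ) = 0 := by push_cast; ring
      rw [this, Real.rpow_zero]
    rw [hw, hσ, div_eq_div_iff (by positivity) (by norm_num)]
    have h2 : ((θ / 4) ^ 2 * T ^ (2 * κ)) * (4 * (H * T ^ (-κ)) ^ 2) =
        (θ / 4) ^ 2 * 4 * H ^ 2 * (T ^ (2 * κ) * (T ^ (-κ)) ^ 2) := by ring
    linear_combination h2 + (θ / 4) ^ 2 * 4 * H ^ 2 * h1
  have hmass : Real.sqrt 2 * Real.exp (-w ^ 2 / (4 * σ ^ 2)) ≤ θ / (1 + θ) := by
    rw [hexpo]; exact e3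
  set E1 : Set ℝ := {t : ℝ | t ∈ Set.Icc T (2 * T) ∧ H ≤ ∫ x in (t - w)..(t + H + w),
        QE R a (μ * Real.log T) X σ x} with hE1
  set E3 : Set ℝ := {t : ℝ | t ∈ Set.Icc T (2 * T) ∧ ∃ s : ℂ, F s = 0 ∧ 1 / 2 + τ < s.re ∧
    s.re < 1 ∧ (|s.im - t| ≤ 3 * Real.log T ∨ |s.im - (t + H)| ≤ 3 * Real.log T)} with hE3
  have key : ∀ t : ℝ, t ∈ Set.Icc T (2 * T) → t ∉ E3 → ∀ Tb : ℝ, T / 2 ≤ Tb → Tb ≤ 2 * T →
      Tb + 1 ≤ t → t + H ≤ 2 * Tb - 1 → t ∉ E1 →
      |(NN F t (t + H) : ℝ) - H * Real.log T / (2 * Real.pi)| ≤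
            ε * (H * Real.log T / (2 * Real.pi)) ∧
          PS R F t (t + H) (μ * Real.log T) ≤ (H * Real.log T / (2 * Real.pi)) * cR R μ +
            ε * (H * Real.log T / (2 * Real.pi)) := by
    intro t ht hE3t Tb hTb1 hTb2 hTb3 hTb4 hE1t
    have hTb0 : 0 < Tb := by linarith
    have hlogb : Real.log Tb ≤ Real.log T + Real.log 2 := by
      rw [← Real.log_mul hTpos.ne' (by norm_num)]
      exact Real.log_le_log hTb0 (by linarith)
    have hlogb2 : Real.log T ≤ Real.log Tb + Real.log 2 := by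
      rw [← Real.log_mul hTb0.ne' (by norm_num)]
      exact Real.log_le_log hTpos (by linarith)
    have hl2 : Real.log 2 ≤ 1 := by
      have := Real.log_two_lt_d9; linarith
    have hadd : t + H - t = H := by ring
    have h := hm Tb (by linarith) (Real.log T) (by rw [abs_le]; constructor <;> linarith)
      t (t + H) hTb3 hTb4 ?_ ?_ σ w X hσ0 hw0 ?_ hmass ?_ ?_
    · rw [hadd] at h
      exact h
    · rw [hadd]
      calc Tb ^ r ≤ (2 * T) ^ r := Real.rpow_le_rpow hTb0.le hTb2 hr0.le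
        _ ≤ T ^ η0 := e1
        _ ≤ H := hH1
    · intro s hs hor
      by_contra hre
      push Not at hre
      apply hE3t
      obtain ⟨h1, h2, h3, h4, h5⟩ := hs
      refine ⟨ht, s, h5, hre, h2, ?_⟩
      rcases hor with hor | hor
      · left
        rw [abs_le]
        constructor
        · linarith
        · linarith
      · right
        rw [abs_le]
        constructor
        · linarith
        · linarith
    · rw [hadd]
    · have h1 : T ^ (lam + κ) ≤ (X : ℝ) + 1 := (Nat.lt_floor_add_one _).le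
      have h2 : (lam + κ) * Real.log T ≤ Real.log (X + 1) := by
        rw [← Real.log_rpow hTpos]
        exact Real.log_le_log (Real.rpow_pos_of_pos hTpos _) h1
      refine le_trans ?_ h2
      rw [div_le_iff₀ (by positivity)] at e2
      calc (lam + κ / 2) * Real.log Tb ≤ (lam + κ / 2) * (Real.log T + Real.log 2) := by gcongr
        _ = (lam + κ / 2) * Real.log T + (lam + κ / 2) * Real.log 2 := by ring
        _ ≤ (lam + κ / 2) * Real.log T + Real.log T * (κ / 2) := by linarith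
        _ = (lam + κ) * Real.log T := by ring
    · rw [hadd]
      by_contra hcon
      push Not at hcon
      exact hE1t ⟨ht, hcon.le⟩
  have hsub : {t : ℝ | t ∈ Set.Icc T (2 * T) ∧
        ¬ (|(NN F t (t + H) : ℝ) - H * Real.log T / (2 * Real.pi)| ≤
            ε * (H * Real.log T / (2 * Real.pi)) ∧
          PS R F t (t + H) (μ * Real.log T) ≤ (H * Real.log T / (2 * Real.pi)) * cR R μ +
            ε * (H * Real.log T / (2 * Real.pi)))} ⊆ E1 ∪ E3 := by
    intro t ht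
    obtain ⟨ht1, ht2⟩ := ht
    by_contra hcon
    simp only [Set.mem_union, not_or] at hcon
    obtain ⟨h1, h3⟩ := hcon
    apply ht2
    rcases le_or_gt t (3 / 2 * T) with h4 | h4
    · exact key t ht1 h3 (9 / 10 * T) (by linarith) (by linarith) (by linarith [ht1.1])
        (by linarith) h1
    · exact key t ht1 h3 (27 / 20 * T) (by linarith) (by linarith) (by linarith)
        (by linarith [ht1.2]) h1
  have hm1 : volume E1 ≤ ENNReal.ofReal (T ^ (1 - κ)) :=
    hexc T hTT1 H hH1 (by linarith) w hw0 hw2 a ha (μ * Real.log T)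
  have hm3 : volume E3 ≤ ENNReal.ofReal (T ^ (1 - δ1)) := hBZ T hTT3 H hHpos.le (by linarith)
  have hp : ∀ x : ℝ, 2 * δ ≤ x → T ^ (1 - x) ≤ T ^ (1 - 2 * δ) := fun x hx =>
    Real.rpow_le_rpow_of_exponent_le (by linarith) (by linarith)
  calc _ ≤ volume (E1 ∪ E3) := measure_mono hsub
    _ ≤ volume E1 + volume E3 := measure_union_le _ _
    _ ≤ ENNReal.ofReal (T ^ (1 - κ)) + ENNReal.ofReal (T ^ (1 - δ1)) := add_le_add hm1 hm3
    _ = ENNReal.ofReal (T ^ (1 - κ) + T ^ (1 - δ1)) := by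
        rw [ENNReal.ofReal_add (by positivity) (by positivity)]
    _ ≤ ENNReal.ofReal (T ^ (1 - δ)) := by
        apply ENNReal.ofReal_le_ofReal
        have h1 := hp κ hδκ
        have h2 := hp δ1 hδδ
        have h3 : T ^ (1 - δ) = T ^ δ * T ^ (1 - 2 * δ) := by
          rw [← Real.rpow_add hTpos]; congr 1; ring
        have h4 : 0 < T ^ (1 - 2 * δ) := Real.rpow_pos_of_pos hTpos _
        rw [h3]
        nlinarith

end Pool.Agent.TH822.AA
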